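import Mathlib
import Pool.Agent.Lib.MP_61eeb2_co.Asymptotic

/-!
Problem MP_61eeb2_co: strong chromatic index of bipartite graphs with two degree bounds.

We show that the bound `Δ₁ * Δ₂` holds up to a factor `1 + ε` as soon as the larger one of the
two degree bounds is large enough in terms of `ε`.
-/

set_option autoImplicit false

namespace Pool.Agent.Results.MP_61eeb2_co.AsymptoticBound

open Pool.Agent.MP_61eeb2_co

theorem ncard_eq_card_nb {V : Type} [Fintype V] (G : SimpleGraph V) (v : V) :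
    (G.neighborSet v).ncard = (nb G v).card := by
  rw [← Set.ncard_coe_finset]
  congr 1
  ext w
  simp [mem_nb]

/-- For every `ε > 0` there is `D₀` such that every bipartite graph whose degrees are at most `Δ₁`
on the side `A` and at most `Δ₂` on the other side, where the larger one of `Δ₁` and `Δ₂` is at
least `D₀`, has a strong edge colouring with fewer than `(1 + ε) * (Δ₁ * Δ₂)` as the bound on the
colours. -/
theorem result : ∀ ε : ℝ, 0 < ε → ∃ D₀ : ℕ,
    ∀ (V : Type) [Fintype V] (G : SimpleGraph V) (A : Set V) (Δ₁ Δ₂ : ℕ),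
    (∀ u v, G.Adj u v → (u ∈ A ↔ v ∉ A)) →
    (∀ v ∈ A, (G.neighborSet v).ncard ≤ Δ₁) →
    (∀ v, v ∉ A → (G.neighborSet v).ncard ≤ Δ₂) →
    D₀ ≤ max Δ₁ Δ₂ →
    ∃ col : Sym2 V → ℕ,
      (∀ a b, G.Adj a b → (col s(a, b) : ℝ) < (1 + ε) * ((Δ₁ : ℝ) * (Δ₂ : ℝ))) ∧
      (∀ a b c d, G.Adj a b → G.Adj c d → s(a, b) ≠ s(c, d) →
        (b = c ∨ G.Adj b c) → col s(a, b) ≠ col s(c, d)) := by
  intro ε hε
  obtain ⟨D0, hD0⟩ := asymptotic_aux ε hε
  refine ⟨D0, ?_⟩
  intro V _ G A D1 D2 hbip h1 h2 hmax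
  simp only [ncard_eq_card_nb] at h1 h2
  by_cases hzero : ∃ a b, G.Adj a b
  · obtain ⟨a0, b0, hab0⟩ := hzero
    -- both bounds are positive
    obtain ⟨x, y, hx, hy, hxy⟩ : ∃ x y, x ∈ A ∧ y ∉ A ∧ G.Adj x y := by
      by_cases ha : a0 ∈ A
      · exact ⟨a0, b0, ha, (hbip a0 b0 hab0).mp ha, hab0⟩
      · have hb : b0 ∈ A := by
          by_contra hb
          exact ha ((hbip a0 b0 hab0).mpr hb)
        exact ⟨b0, a0, hb, ha, hab0.symm⟩
    have hp1 : 0 < D1 :=
      lt_of_lt_of_le (Finset.card_pos.mpr ⟨y, (mem_nb G x y).mpr hxy⟩) (h1 x hx)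
    have hp2 : 0 < D2 :=
      lt_of_lt_of_le (Finset.card_pos.mpr ⟨x, (mem_nb G y x).mpr hxy.symm⟩) (h2 y hy)
    rcases le_total D2 D1 with hle | hle
    · rw [max_eq_left hle] at hmax
      exact hD0 V G A D1 D2 hbip h1 h2 hp2 hle hmax
    · rw [max_eq_right hle] at hmax
      have hbip' : ∀ u v, G.Adj u v → (u ∈ Aᶜ ↔ v ∉ Aᶜ) := by
        intro u v huv
        rw [Set.mem_compl_iff, Set.mem_compl_iff]
        have := hbip u v huv
        tauto
      have h1' : ∀ v, v ∉ Aᶜ → (nb G v).card ≤ D1 := by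
        intro v hv
        rw [Set.mem_compl_iff, not_not] at hv
        exact h1 v hv
      obtain ⟨col, c1, c2⟩ := hD0 V G Aᶜ D2 D1 hbip' (fun v hv => h2 v hv) h1' hp1 hle hmax
      refine ⟨col, ?_, c2⟩
      intro a b hab
      have := c1 a b hab
      rw [mul_comm (D2 : ℝ) (D1 : ℝ)] at this
      exact this
  · refine ⟨fun _ => 0, ?_, ?_⟩
    · intro a b hab
      exact absurd ⟨a, b, hab⟩ hzero
    · intro a b c d hab
      exact absurd ⟨a, b, hab⟩ hzero

end Pool.Agent.Results.MP_61eeb2_co.AsymptoticBound
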