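import Mathlib
import Pool.Agent.Lib.MP_61eeb2_co.EX.Gra

/-!
Problem MP_61eeb2_co: strong chromatic index of bipartite graphs with two degree bounds.

We show that the conjectured bound `Δ₁ * Δ₂` holds exactly as soon as the larger one of the two
degree bounds is large in terms of the smaller one.
-/

set_option autoImplicit false

namespace Pool.Agent.Results.MP_61eeb2_co.ExactLargeDegree

open Pool.Agent.MP_61eeb2_co.EX

/-- For every `k` there is `D₀` such that every finite bipartite graph whose degrees are at most `Δ₁`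
on the side `A` and at most `Δ₂` on the other side, where the smaller one of `Δ₁` and `Δ₂` is at
most `k` and the larger one is at least `D₀`, has a strong edge colouring with `Δ₁ * Δ₂` colours. -/
theorem result : ∀ k : ℕ, ∃ D₀ : ℕ,
    ∀ (V : Type) [Fintype V] (G : SimpleGraph V) (A : Set V) (Δ₁ Δ₂ : ℕ),
    (∀ u v, G.Adj u v → (u ∈ A ↔ v ∉ A)) →
    (∀ v ∈ A, (G.neighborSet v).ncard ≤ Δ₁) →
    (∀ v, v ∉ A → (G.neighborSet v).ncard ≤ Δ₂) →
    min Δ₁ Δ₂ ≤ k → D₀ ≤ max Δ₁ Δ₂ →
    ∃ col : Sym2 V → ℕ,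
      (∀ a b, G.Adj a b → col s(a, b) < Δ₁ * Δ₂) ∧
      (∀ a b c d, G.Adj a b → G.Adj c d → s(a, b) ≠ s(c, d) →
        (b = c ∨ G.Adj b c) → col s(a, b) ≠ col s(c, d)) :=
  graph_form

end Pool.Agent.Results.MP_61eeb2_co.ExactLargeDegree
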