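import Mathlib
import Pool.Agent.Lib.MP_61eeb2_co.Perm

/-!
Problem MP_61eeb2_co: strong chromatic index of bipartite graphs with two degree bounds.

We show that the fractional strong chromatic index is at most `Δ₁ * Δ₂`, for all bipartite graphs
and all degree bounds.
-/

set_option autoImplicit false

namespace Pool.Agent.Results.MP_61eeb2_co.FractionalBound

open Pool.Agent.MP_61eeb2_co Finset

/-- `M` is an induced matching of `G`: its members are edges of `G`, and for two different members
no endpoint of the one is equal or adjacent to an endpoint of the other. -/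
def IsInducedMatching {V : Type} (G : SimpleGraph V) (M : Finset (Sym2 V)) : Prop :=
  (∀ e ∈ M, e ∈ G.edgeSet) ∧
    ∀ a b c d, s(a, b) ∈ M → s(c, d) ∈ M → s(a, b) ≠ s(c, d) → b ≠ c ∧ ¬ G.Adj b c

open Classical in
theorem phase_family {V : Type} [Fintype V] (G : SimpleGraph V) (A : Set V) (Δ₁ : ℕ)
    (hbip : ∀ u v, G.Adj u v → (u ∈ A ↔ v ∉ A))
    (h1 : ∀ v ∈ A, (univ.filter (fun w => G.Adj v w)).card ≤ Δ₁)
    (r : V → ℕ) (hr : Function.Injective r) (π : Equiv.Perm V) :
    ∃ M : Fin Δ₁ → Finset (Sym2 V), (∀ i, IsInducedMatching G (M i)) ∧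
      ∀ a b, a ∈ A → G.Adj a b → FirstIn r (univ.filter (fun w => G.Adj b w)) a π →
        ∃ i, s(a, b) ∈ M i := by
  have hex : ∀ b, (∃ a, G.Adj a b) → ∃ a, G.Adj a b ∧
      FirstIn r (univ.filter (fun w => G.Adj b w)) a π := by
    rintro b ⟨a, hab⟩
    obtain ⟨a', ha', hmin⟩ := Finset.exists_min_image (univ.filter (fun w => G.Adj b w))
      (fun x => r (π x)) ⟨a, by simpa using hab.symm⟩
    refine ⟨a', by simpa using (mem_filter.mp ha').2.symm, ?_⟩
    intro x hx hne
    exact lt_of_le_of_ne (hmin x hx) (fun heq => hne (π.injective (hr heq)).symm)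
  set σ : V → V := fun b => if h : ∃ a, G.Adj a b ∧
    FirstIn r (univ.filter (fun w => G.Adj b w)) a π then Classical.choose h else b with hσ
  have hσs : ∀ b, (∃ a, G.Adj a b) → G.Adj (σ b) b ∧
      FirstIn r (univ.filter (fun w => G.Adj b w)) (σ b) π := by
    intro b hb
    have h := hex b hb
    have e1 : σ b = Classical.choose h := by simp only [hσ]; rw [dif_pos h]
    rw [e1]
    exact Classical.choose_spec h
  set B' : Finset V := univ.filter (fun b => b ∉ A ∧ ∃ a, G.Adj a b) with hB'
  obtain ⟨c, hc1, hc2⟩ := phase_colouring G σ (fun v => r (π v)) Δ₁ B'.card B' rfl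
    (fun b hb => (hσs b (mem_filter.mp hb).2.2).1)
    (fun b hb a hab hne => (hσs b (mem_filter.mp hb).2.2).2 a (by simpa using hab.symm) hne)
    (by
      intro a
      by_cases ha : a ∈ A
      · refine le_trans (Finset.card_le_card ?_) (h1 a ha)
        intro b hb
        simpa using (mem_filter.mp hb).2
      · have : B'.filter (fun b => G.Adj a b) = ∅ := by
          rw [Finset.filter_eq_empty_iff]
          intro b hb hab
          exact ha ((hbip a b hab).mpr (mem_filter.mp hb).2.1)
        rw [this]; simp)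
  refine ⟨fun i => (B'.filter (fun b => c b = i)).image (fun b => s(σ b, b)), ?_, ?_⟩
  · intro i
    refine ⟨?_, ?_⟩
    · intro e he
      rw [mem_image] at he
      obtain ⟨b, hb, rfl⟩ := he
      rw [SimpleGraph.mem_edgeSet]
      exact (hσs b (mem_filter.mp (mem_filter.mp hb).1).2.2).1
    · intro p q p' q' hm hm' hne
      rw [mem_image] at hm hm'
      obtain ⟨x, hx, hxe⟩ := hm
      obtain ⟨y, hy, hye⟩ := hm'
      rw [mem_filter] at hx hy
      have hxB := (mem_filter.mp hx.1).2
      have hyB := (mem_filter.mp hy.1).2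
      have hxy : x ≠ y := by
        rintro rfl
        exact hne (hxe.symm.trans hye)
      have hcc : c x = c y := by rw [hx.2, hy.2]
      have n1 : ¬ G.Adj (σ x) y := fun h => hc2 x hx.1 y hy.1 hxy h hcc
      have n2 : ¬ G.Adj (σ y) x := fun h => hc2 y hy.1 x hx.1 (fun h => hxy h.symm) h hcc.symm
      have s1 := (hσs x hxB.2).1
      have s2 := (hσs y hyB.2).1
      have a1 : σ x ∈ A := (hbip _ _ s1).mpr hxB.1
      have a2 : σ y ∈ A := (hbip _ _ s2).mpr hyB.1
      have hq : q = x ∨ q = σ x := by
        rw [Sym2.eq_iff] at hxe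
        rcases hxe with ⟨_, h⟩ | ⟨h, _⟩
        · exact Or.inl h.symm
        · exact Or.inr h.symm
      have hp' : p' = y ∨ p' = σ y := by
        rw [Sym2.eq_iff] at hye
        rcases hye with ⟨h, _⟩ | ⟨_, h⟩
        · exact Or.inr h.symm
        · exact Or.inl h.symm
      rcases hq with rfl | rfl <;> rcases hp' with rfl | rfl
      · exact ⟨hxy, fun h => hxB.1 ((hbip _ _ h).mpr hyB.1)⟩
      · exact ⟨fun h => hxB.1 (h ▸ a2), fun h => n2 h.symm⟩
      · exact ⟨fun h => hyB.1 (h ▸ a1), n1⟩
      · refine ⟨fun h => n1 (h ▸ s2), fun h => ((hbip _ _ h).mp a1) a2⟩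
  · intro a b ha hab hfirst
    have hb : b ∈ B' := mem_filter.mpr ⟨mem_univ _, (hbip a b hab).mp ha, a, hab⟩
    have hs := hσs b ⟨a, hab⟩
    have hsa : σ b = a := by
      by_contra hne
      have f1 := hfirst (σ b) (by simpa using hs.1.symm) hne
      have f2 := hs.2 a (by simpa using hab.symm) (fun h => hne h.symm)
      omega
    refine ⟨⟨c b, hc1 b hb⟩, ?_⟩
    simp only
    rw [mem_image]
    exact ⟨b, mem_filter.mpr ⟨hb, rfl⟩, by rw [hsa]⟩

open Classical in
/-- The fractional strong chromatic index of a bipartite graph is at most `Δ₁ * Δ₂`: there are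
nonnegative weights on the induced matchings with sum at most `Δ₁ * Δ₂` such that for every edge
the induced matchings containing it have total weight at least `1`. -/
theorem result : ∀ (V : Type) [Fintype V] (G : SimpleGraph V) (A : Set V) (Δ₁ Δ₂ : ℕ),
    (∀ u v, G.Adj u v → (u ∈ A ↔ v ∉ A)) →
    (∀ v ∈ A, (G.neighborSet v).ncard ≤ Δ₁) →
    (∀ v, v ∉ A → (G.neighborSet v).ncard ≤ Δ₂) →
    ∃ w : Finset (Sym2 V) → ℝ,
      (∀ M, 0 ≤ w M) ∧
      (∀ M, w M ≠ 0 → IsInducedMatching G M) ∧
      (∑ M, w M) ≤ (Δ₁ : ℝ) * (Δ₂ : ℝ) ∧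
      ∀ e ∈ G.edgeSet, 1 ≤ ∑ M with e ∈ M, w M := by
  intro V _ G A D1 D2 hbip h1 h2
  have hncard : ∀ v, (G.neighborSet v).ncard = (univ.filter (fun w => G.Adj v w)).card := by
    intro v
    rw [← Set.ncard_coe_finset]
    congr 1
    ext w
    simp
  simp only [hncard] at h1 h2
  set r : V → ℕ := fun v => (Fintype.equivFin V v : ℕ) with hr
  have hrinj : Function.Injective r := by
    intro x y hxy
    exact (Fintype.equivFin V).injective (Fin.ext hxy)
  choose M hM1 hM2 using fun π => phase_family G A D1 hbip h1 r hrinj π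
  set N : ℝ := (Fintype.card (Equiv.Perm V) : ℝ) with hN
  have hNpos : 0 < N := by
    rw [hN]; exact_mod_cast Fintype.card_pos
  set w : Finset (Sym2 V) → ℝ := fun X => (D2 : ℝ) / N *
    ((univ : Finset (Equiv.Perm V × Fin D1)).filter (fun p => M p.1 p.2 = X)).card with hw
  refine ⟨w, ?_, ?_, ?_, ?_⟩
  · intro X
    simp only [hw]
    positivity
  · intro X hX
    simp only [hw] at hX
    have h3 : ((univ : Finset (Equiv.Perm V × Fin D1)).filter (fun p => M p.1 p.2 = X)).card ≠ 0 := by
      intro h
      apply hX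
      rw [h]; simp
    obtain ⟨p, hp⟩ := Finset.card_pos.mp (Nat.pos_of_ne_zero h3)
    rw [← (mem_filter.mp hp).2]
    exact hM1 p.1 p.2
  · have e1 : ∑ X, w X = (D2 : ℝ) / N *
        ((∑ X : Finset (Sym2 V), ((univ : Finset (Equiv.Perm V × Fin D1)).filter
          (fun p => M p.1 p.2 = X)).card : ℕ) : ℝ) := by
      simp only [hw]
      rw [← Finset.mul_sum]
      push_cast
      rfl
    have e2 : (∑ X : Finset (Sym2 V), ((univ : Finset (Equiv.Perm V × Fin D1)).filter
          (fun p => M p.1 p.2 = X)).card) = Fintype.card (Equiv.Perm V) * D1 := by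
      rw [← Finset.card_eq_sum_card_fiberwise (fun _ _ => mem_coe.mpr (mem_univ _))]
      rw [Finset.card_univ, Fintype.card_prod, Fintype.card_fin]
    rw [e1, e2]
    push_cast
    rw [← hN]
    have : (D2 : ℝ) / N * (N * D1) = D1 * D2 := by
      field_simp
    rw [this]
  · intro e he
    -- orient the edge
    obtain ⟨a, b, ha, hab, rfl⟩ : ∃ a b, a ∈ A ∧ G.Adj a b ∧ e = s(a, b) := by
      induction e using Sym2.ind with
      | _ x y =>
        rw [SimpleGraph.mem_edgeSet] at he
        by_cases hx : x ∈ A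
        · exact ⟨x, y, hx, he, rfl⟩
        · have hy : y ∈ A := by
            by_contra hy
            exact hx ((hbip x y he).mpr hy)
          exact ⟨y, x, hy, he.symm, Sym2.eq_swap⟩
    have hb : b ∉ A := (hbip a b hab).mp ha
    have e1 : ∑ X with s(a, b) ∈ X, w X = (D2 : ℝ) / N *
        ((∑ X : Finset (Sym2 V) with s(a, b) ∈ X, ((univ : Finset (Equiv.Perm V × Fin D1)).filter
          (fun p => M p.1 p.2 = X)).card : ℕ) : ℝ) := by
      simp only [hw]
      rw [← Finset.mul_sum]
      push_cast
      rfl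
    have e2 : (∑ X : Finset (Sym2 V) with s(a, b) ∈ X,
        ((univ : Finset (Equiv.Perm V × Fin D1)).filter (fun p => M p.1 p.2 = X)).card) =
        ((univ : Finset (Equiv.Perm V × Fin D1)).filter (fun p => s(a, b) ∈ M p.1 p.2)).card := by
      rw [Finset.card_eq_sum_card_fiberwise (f := fun p => M p.1 p.2)
        (t := univ.filter (fun X => s(a, b) ∈ X))]
      · apply Finset.sum_congr rfl
        intro X hX
        congr 1
        ext p
        simp only [mem_filter, mem_univ, true_and]
        constructor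
        · intro h
          exact ⟨by rw [h]; exact (mem_filter.mp hX).2, h⟩
        · intro h
          exact h.2
      · intro p hp
        simp only [coe_filter, mem_univ, true_and, Set.mem_ofPred_eq] at hp ⊢
        exact hp
    have e3 : (univ.filter (fun π : Equiv.Perm V =>
        FirstIn r (univ.filter (fun w => G.Adj b w)) a π)).card ≤
        ((univ : Finset (Equiv.Perm V × Fin D1)).filter (fun p => s(a, b) ∈ M p.1 p.2)).card := by
      have hex : ∀ π : Equiv.Perm V, ∃ i : Fin D1, FirstIn r (univ.filter (fun w => G.Adj b w)) a π →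
          s(a, b) ∈ M π i := by
        intro π
        by_cases h : FirstIn r (univ.filter (fun w => G.Adj b w)) a π
        · obtain ⟨i, hi⟩ := hM2 π a b ha hab h
          exact ⟨i, fun _ => hi⟩
        · have hD1 : 0 < D1 := lt_of_lt_of_le
            (Finset.card_pos.mpr ⟨b, by simpa using hab⟩) (h1 a ha)
          exact ⟨⟨0, hD1⟩, fun h' => absurd h' h⟩
      choose f hf using hex
      apply Finset.card_le_card_of_injOn (fun π => (π, f π))
      · intro π hπ
        simp only [coe_filter, mem_univ, true_and, Set.mem_ofPred_eq] at hπ ⊢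
        exact hf π hπ
      · intro π _ π' _ h
        exact (Prod.mk.injEq _ _ _ _ ▸ h).1
    have e4 := card_firstIn r hrinj (univ.filter (fun w => G.Adj b w)) a (by simpa using hab.symm)
    have e5 : Fintype.card (Equiv.Perm V) ≤ D2 *
        ((univ : Finset (Equiv.Perm V × Fin D1)).filter (fun p => s(a, b) ∈ M p.1 p.2)).card := by
      rw [← e4]
      exact Nat.mul_le_mul (h2 b hb) e3
    have e6 : N ≤ (D2 : ℝ) *
        (((univ : Finset (Equiv.Perm V × Fin D1)).filter
          (fun p => s(a, b) ∈ M p.1 p.2)).card : ℝ) := by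
      rw [hN]; exact_mod_cast e5
    rw [e1, e2, div_mul_eq_mul_div, le_div_iff₀ hNpos, one_mul]
    exact e6

end Pool.Agent.Results.MP_61eeb2_co.FractionalBound
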